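import Pool.Agent.Q173.FM.Main

/-!
# The even forms realised by smooth simply connected 4-manifolds
-/

set_option autoImplicit false

open Pool.Agent.Q173.FM

namespace Pool.Agent.Results.MP_cb9bff_gt.FiniteGeneration

theorem result {E : AddSubmonoid (ℤ × ℕ)} (hE : IsRealised E) :
    -- the threshold function
    ((∀ m k, (m, k) ∈ E ↔ thr E m.natAbs ≤ k) ∧ (∀ m n, thr E (m + n) ≤ thr E m + thr E n) ∧
      ∀ m, 1 ≤ m → 2 * m + 1 ≤ thr E m ∧ thr E m ≤ 3 * m) ∧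
    -- the 11/8 inequality
    List.TFAE [
      ∀ m, thr E m = 3 * m,
      ∀ ε : ℝ, 0 < ε → ∃ M : ℕ, ∀ m, M ≤ m → (3 - ε) * m ≤ thr E m,
      ∀ M : ℕ, ∃ m, M ≤ m ∧ 3 * m ≤ thr E m,
      E = AddSubmonoid.closure {(0, 1), (1, 3), (-1, 3)}] ∧
    (∀ m₀, thr E m₀ < 3 * m₀ → ∀ m, thr E m + m / m₀ ≤ 3 * m) ∧
    -- finite generation
    List.TFAE [
      E.FG,
      {x | Indecomposable E x}.Finite,
      ∃ m₀ : ℕ, 1 ≤ m₀ ∧ ∀ m, thr E m₀ * m ≤ thr E m * m₀,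
      ∃ m₀ : ℕ, 1 ≤ m₀ ∧ ∃ N : ℕ, ∀ m, N ≤ m → thr E (m + m₀) = thr E m + thr E m₀] ∧
    (E.FG → ∃ m₀ : ℕ, 1 ≤ m₀ ∧ ∀ m, (2 * m₀ + 1) * m ≤ thr E m * m₀) := by
  refine ⟨⟨hE.mem_iff, hE.thr_add, fun m hm => ⟨hE.furuta' (by omega), hE.thr_le_three m⟩⟩,
    hE.eleven_eighths, fun m₀ h m => hE.spread h m, hE.finite_generation, fun h => ?_⟩
  obtain ⟨m₀, hm₀, h1⟩ := (hE.finite_generation.out 0 2).1 h
  exact ⟨m₀, hm₀, fun m => (Nat.mul_le_mul_right _ (hE.furuta' (by omega))).trans (h1 m)⟩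

end Pool.Agent.Results.MP_cb9bff_gt.FiniteGeneration
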