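import Pool.Agent.Q201.Lines

/-!
# Simply connected hypersurfaces with a good axis are standard spheres

Let `X` be a closed simply connected smooth 4-manifold which is smoothly embedded in `ℝ⁵`, as the
boundary of the bounded domain `W` (every homotopy 4-sphere can be embedded in this way), and let
`L` be a straight line of `ℝ⁵`. Consider the points `x` of `X` whose outward normal ray meets `L` at
a right angle, at distance `d > 0` from `x`. These are the critical points `x` of the distance from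
`L` on `X`, off `L`, at which the distance increases towards the inside of `W`, and the Hessian of
half of the squared distance from `L` on `X` is there `|v|² - ⟨v, e⟩² + d II(v, v)`, where `e` is a
unit vector of `L` and `II` is the second fundamental form. If for one line `L` this form has at all
these points at most one nonpositive eigenvalue, then `X` is diffeomorphic to the standard sphere
`S⁴`. (The theorem is proved for hypersurfaces of dimension `n` in `ℝⁿ⁺¹`, for all `n`.)
-/

set_option autoImplicit false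

namespace Pool.Agent.Results.MP_cb9bff_gt.LineDistance

open Set Metric Manifold
open scoped Manifold ContDiff Topology RealInnerProductSpace Gradient

/-- Euclidean space of dimension `n`. -/
abbrev Eu (n : ℕ) := EuclideanSpace ℝ (Fin n)

/-- `{ρ ≤ 0}` is a compact connected domain of Euclidean space with smooth boundary `{ρ = 0}`. -/
structure SmoothDomain (n : ℕ) (ρ : Eu n → ℝ) : Prop where
  smooth : ContDiff ℝ ∞ ρ
  regular : ∀ x, ρ x = 0 → ∇ ρ x ≠ 0
  compact : IsCompact {x | ρ x ≤ 0}
  connected : IsConnected {x | ρ x ≤ 0}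

/-- The outward unit normal vector at the boundary point `x` of the domain `{ρ ≤ 0}`. -/
noncomputable def normal {n : ℕ} (ρ : Eu n → ℝ) (x : Eu n) : Eu n := ‖∇ ρ x‖⁻¹ • ∇ ρ x

/-- The second fundamental form `II(v, v) = ⟨(D ∇ρ) v, v⟩ / |∇ρ|` of the boundary of `{ρ ≤ 0}` at
`x`, with respect to the outward unit normal, on the tangent vector `v` (it is positive for convex
domains). -/
noncomputable def secondForm {n : ℕ} (ρ : Eu n → ℝ) (x v : Eu n) : ℝ :=
  ⟪fderiv ℝ (∇ ρ) x v, v⟫ / ‖∇ ρ x‖

/-- At most one eigenvalue of the quadratic form `|y|² - ⟨y, e⟩² + d II(y, y)` on the tangent space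
at `x` is nonpositive: the form takes a positive value on every tangent plane. -/
def AtMostOneNonpositive {n : ℕ} (ρ : Eu n → ℝ) (e x : Eu n) (d : ℝ) : Prop :=
  ∀ v w : Eu n, LinearIndependent ℝ ![v, w] → ⟪normal ρ x, v⟫ = 0 → ⟪normal ρ x, w⟫ = 0 →
    ∃ y ∈ Submodule.span ℝ {v, w}, 0 < ‖y‖ ^ 2 - ⟪y, e⟫ ^ 2 + d * secondForm ρ x y

theorem result (n : ℕ) (X : Type) [TopologicalSpace X] [ChartedSpace (Eu n) X]
    [IsManifold (𝓡 n) ∞ X] [SimplyConnectedSpace X] (j : X → Eu (n + 1))
    (hj : IsSmoothEmbedding (𝓡 n) (𝓡 (n + 1)) ∞ j) (ρ : Eu (n + 1) → ℝ)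
    (hρ : SmoothDomain (n + 1) ρ) (hX : range j = {x | ρ x = 0}) (p e : Eu (n + 1)) (he : ‖e‖ = 1)
    (h : ∀ x, ρ x = 0 → ⟪normal ρ x, e⟫ = 0 → ∀ d t : ℝ, 0 < d →
      x + d • normal ρ x = p + t • e → AtMostOneNonpositive ρ e x d) :
    Nonempty (X ≃ₘ⟮𝓡 n, 𝓡 n⟯ sphere (0 : Eu (n + 1)) 1) := by
  refine Q201.Lines.hyp_lines hj hρ.smooth hρ.regular hρ.compact hρ.connected hX p e he ?_
  intro x hx ho s t hs hp v w hv hw hvw h1 h2
  have hg0 : 0 < ‖∇ ρ x‖ := norm_pos_iff.2 (hρ.regular x hx)
  have horth : ∀ y, ⟪∇ ρ x, y⟫ = 0 → ⟪normal ρ x, y⟫ = 0 := by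
    intro y hy
    unfold normal
    rw [inner_smul_left, hy]
    simp
  have hp' : x + (s * ‖∇ ρ x‖) • normal ρ x = p + t • e := by
    rw [← hp]
    unfold normal
    rw [smul_smul, mul_assoc, mul_inv_cancel₀ hg0.ne', mul_one]
  have hli : LinearIndependent ℝ ![v, w] := by
    rw [LinearIndependent.pair_iff]
    intro a b hab
    have h3 := Q201.Lines.norm_comb hv hw hvw a b
    rw [hab, inner_zero_left] at h3
    constructor <;> nlinarith [sq_nonneg a, sq_nonneg b]
  obtain ⟨y, hy, hpos⟩ := h x hx (horth e ho) (s * ‖∇ ρ x‖) t (by positivity) hp' v w hli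
    (horth v h1) (horth w h2)
  obtain ⟨a, b, rfl⟩ := Submodule.mem_span_pair.1 hy
  refine ⟨a, b, ?_⟩
  rw [← real_inner_self_eq_norm_sq, Q201.Lines.norm_comb hv hw hvw] at hpos
  unfold secondForm at hpos
  have h6 : s * ‖∇ ρ x‖ * (⟪fderiv ℝ (∇ ρ) x (a • v + b • w), a • v + b • w⟫ / ‖∇ ρ x‖) =
      s * ⟪fderiv ℝ (∇ ρ) x (a • v + b • w), a • v + b • w⟫ := by
    field_simp
  rw [h6] at hpos
  linarith

end Pool.Agent.Results.MP_cb9bff_gt.LineDistance
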