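import Pool.Agent.Q196.XG.Hyp

/-!
# Simply connected hypersurfaces with a direction without saddles are standard spheres

Let `X` be a closed simply connected smooth 4-manifold which is smoothly embedded in `ℝ⁵`, as the
boundary of the bounded domain `W` (every homotopy 4-sphere can be embedded in this way), let
`κ₁ ≤ κ₂ ≤ κ₃ ≤ κ₄` be its principal curvatures with respect to the outward unit normal, and let `e`
be a unit vector. If no point of `X` with outward unit normal `e` has `κ₂ ≤ 0 ≤ κ₄`, then `X` is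
diffeomorphic to the standard sphere `S⁴`. (The theorem is proved for hypersurfaces of dimension
`n ≥ 3` in `ℝⁿ⁺¹`, with the condition `κ₂ ≤ 0 ≤ κₙ`.)
-/

set_option autoImplicit false

namespace Pool.Agent.Results.MP_cb9bff_gt.SaddleDirections

open Set Metric Manifold
open scoped Manifold ContDiff Topology RealInnerProductSpace Gradient

/-- Euclidean space of dimension `n`. -/
abbrev Eu (n : ℕ) := EuclideanSpace ℝ (Fin n)

/-- `{ρ ≤ 0}` is a compact connected domain of Euclidean space with smooth boundary `{ρ = 0}`. -/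
structure SmoothDomain (n : ℕ) (ρ : Eu n → ℝ) : Prop where
  smooth : ContDiff ℝ ∞ ρ
  regular : ∀ x, ρ x = 0 → ∇ ρ x ≠ 0
  compact : IsCompact {x | ρ x ≤ 0}
  connected : IsConnected {x | ρ x ≤ 0}

/-- The outward unit normal vector at the boundary point `x` of the domain `{ρ ≤ 0}`. -/
noncomputable def normal {n : ℕ} (ρ : Eu n → ℝ) (x : Eu n) : Eu n := ‖∇ ρ x‖⁻¹ • ∇ ρ x

/-- The second fundamental form `II(v, v) = ⟨(D ∇ρ) v, v⟩ / |∇ρ|` of the boundary of `{ρ ≤ 0}` at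
`x`, with respect to the outward unit normal, on the tangent vector `v` (it is positive for convex
domains). -/
noncomputable def secondForm {n : ℕ} (ρ : Eu n → ℝ) (x v : Eu n) : ℝ :=
  ⟪fderiv ℝ (∇ ρ) x v, v⟫ / ‖∇ ρ x‖

/-- The second fundamental form at `x` is nonpositive on a tangent plane and nonnegative on a unit
tangent vector: the principal curvatures `κ₁ ≤ ... ≤ κₙ` satisfy `κ₂ ≤ 0 ≤ κₙ`. -/
def IsSaddle {n : ℕ} (ρ : Eu n → ℝ) (x : Eu n) : Prop :=
  (∃ v w : Eu n, ‖v‖ = 1 ∧ ‖w‖ = 1 ∧ ⟪v, w⟫ = 0 ∧ ⟪normal ρ x, v⟫ = 0 ∧ ⟪normal ρ x, w⟫ = 0 ∧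
    ∀ a b : ℝ, secondForm ρ x (a • v + b • w) ≤ 0) ∧
  ∃ z : Eu n, ‖z‖ = 1 ∧ ⟪normal ρ x, z⟫ = 0 ∧ 0 ≤ secondForm ρ x z

theorem result (n : ℕ) (hn : 3 ≤ n) (X : Type) [TopologicalSpace X] [ChartedSpace (Eu n) X]
    [IsManifold (𝓡 n) ∞ X] [SimplyConnectedSpace X] (j : X → Eu (n + 1))
    (hj : IsSmoothEmbedding (𝓡 n) (𝓡 (n + 1)) ∞ j) (ρ : Eu (n + 1) → ℝ)
    (hρ : SmoothDomain (n + 1) ρ) (hX : range j = {x | ρ x = 0}) (e : Eu (n + 1)) (he : ‖e‖ = 1)
    (h : ∀ x, ρ x = 0 → normal ρ x = e → ¬IsSaddle ρ x) :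
    Nonempty (X ≃ₘ⟮𝓡 n, 𝓡 n⟯ sphere (0 : Eu (n + 1)) 1) := by
  by_contra hno
  have hφ : ContDiff ℝ ∞ fun y : Eu (n + 1) => -⟪e, y⟫ := (contDiff_const.inner ℝ contDiff_id).neg
  have hgr : ∀ x, ∇ (fun y : Eu (n + 1) => -⟪e, y⟫) x = -e := by
    intro x
    have h1 : HasFDerivAt (fun y : Eu (n + 1) => -⟪e, y⟫) (-(innerSL ℝ e)) x :=
      (innerSL ℝ e).hasFDerivAt.neg
    unfold gradient
    rw [h1.fderiv]
    apply (InnerProductSpace.toDual ℝ (Eu (n + 1))).injective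
    rw [LinearIsometryEquiv.apply_symm_apply, map_neg]
    rfl
  have hH : ∀ x, fderiv ℝ (∇ fun y : Eu (n + 1) => -⟪e, y⟫) x = 0 := by
    intro x
    rw [show (∇ fun y : Eu (n + 1) => -⟪e, y⟫) = fun _ => -e from funext hgr]
    exact (hasFDerivAt_const _ _).fderiv
  have hene : e ≠ 0 := fun h0 => by
    rw [h0, norm_zero] at he
    exact zero_ne_one he
  obtain ⟨x, -, s, hs, hsρ, hg, v, w, z, hv, hw, hz, hvw, h1, h2, h3, h4, h5⟩ :=
    Q196.XG.hyp_crit3 hn hj hρ.smooth hρ.regular hρ.compact hρ.connected hX hno hφ (by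
      intro x _ h0
      rw [hgr, neg_eq_zero] at h0
      exact absurd h0 hene)
  rw [hgr] at hg
  simp only [hH, _root_.zero_apply, inner_zero_left, zero_add] at h4 h5
  have hs0 : s ≠ 0 := by
    rintro rfl
    rw [zero_smul, add_zero, neg_eq_zero] at hg
    exact hene hg
  have hsp : 0 < s := lt_of_le_of_ne hs (Ne.symm hs0)
  have hx : ρ x = 0 := (mul_eq_zero.1 hsρ).resolve_left hs0
  have hg0 : 0 < ‖∇ ρ x‖ := norm_pos_iff.2 (hρ.regular x hx)
  have hse : s • ∇ ρ x = e := by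
    have := neg_eq_of_add_eq_zero_right hg
    rw [neg_neg] at this
    exact this.symm
  have hsn : s * ‖∇ ρ x‖ = 1 := by
    rw [← he, ← hse, norm_smul, Real.norm_eq_abs, abs_of_pos hsp]
  have hnor : normal ρ x = e := by
    unfold normal
    rw [← hse, eq_div_of_mul_eq hg0.ne' hsn, one_div]
  have horth : ∀ y, s * ⟪∇ ρ x, y⟫ = 0 → ⟪normal ρ x, y⟫ = 0 := by
    intro y hy
    rw [hnor, ← hse, inner_smul_left]
    exact hy
  refine h x hx hnor ⟨⟨v, w, hv, hw, hvw, horth v h1, horth w h2, fun a b => ?_⟩, z, hz,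
    horth z h3, ?_⟩
  · refine div_nonpos_of_nonpos_of_nonneg ?_ hg0.le
    have := h4 a b
    by_contra hlt
    push Not at hlt
    have := mul_pos hsp hlt
    linarith
  · refine div_nonneg ?_ hg0.le
    by_contra hlt
    push Not at hlt
    have := mul_neg_of_pos_of_neg hsp hlt
    linarith

end Pool.Agent.Results.MP_cb9bff_gt.SaddleDirections
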