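import Pool.Agent.Q196.XG.Hyp

/-!
# Simply connected hypersurfaces with a centre without saddles are standard spheres

Let `X` be a closed simply connected smooth 4-manifold which is smoothly embedded in `ℝ⁵`, as the
boundary of the bounded domain `W` (every homotopy 4-sphere can be embedded in this way), and let
`κ₁ ≤ κ₂ ≤ κ₃ ≤ κ₄` be its principal curvatures with respect to the outward unit normal `ν`. If one
of the following holds, then `X` is diffeomorphic to the standard sphere `S⁴`.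

* There is a point `p` of `ℝ⁵` such that no `x` in `X` with `p = x + d • ν(x)`, `d > 0`, has
  `κ₂ ≤ -1/d ≤ κ₄`.
* There is a point `p` outside `W` such that no `x` in `X` with `p = x - d • ν(x)`, `d > 0`, has
  `κ₂ ≤ 1/d ≤ κ₄`.

(The theorem is proved for hypersurfaces of dimension `n ≥ 3` in `ℝⁿ⁺¹`, with `κₙ` for `κ₄`.)
-/

set_option autoImplicit false

namespace Pool.Agent.Results.MP_cb9bff_gt.SaddleRays

open Set Metric Manifold
open scoped Manifold ContDiff Topology RealInnerProductSpace Gradient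

/-- Euclidean space of dimension `n`. -/
abbrev Eu (n : ℕ) := EuclideanSpace ℝ (Fin n)

/-- `{ρ ≤ 0}` is a compact connected domain of Euclidean space with smooth boundary `{ρ = 0}`. -/
structure SmoothDomain (n : ℕ) (ρ : Eu n → ℝ) : Prop where
  smooth : ContDiff ℝ ∞ ρ
  regular : ∀ x, ρ x = 0 → ∇ ρ x ≠ 0
  compact : IsCompact {x | ρ x ≤ 0}
  connected : IsConnected {x | ρ x ≤ 0}

/-- The outward unit normal vector at the boundary point `x` of the domain `{ρ ≤ 0}`. -/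
noncomputable def normal {n : ℕ} (ρ : Eu n → ℝ) (x : Eu n) : Eu n := ‖∇ ρ x‖⁻¹ • ∇ ρ x

/-- The second fundamental form `II(v, v) = ⟨(D ∇ρ) v, v⟩ / |∇ρ|` of the boundary of `{ρ ≤ 0}` at
`x`, with respect to the outward unit normal, on the tangent vector `v` (it is positive for convex
domains). -/
noncomputable def secondForm {n : ℕ} (ρ : Eu n → ℝ) (x v : Eu n) : ℝ :=
  ⟪fderiv ℝ (∇ ρ) x v, v⟫ / ‖∇ ρ x‖

/-- The hypersurface is a saddle relative to the sphere of curvature `c` with the same normal: the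
second fundamental form is at most `c` on the unit vectors of a tangent plane and at least `c` on a
unit tangent vector, that is, `κ₂ ≤ c ≤ κₙ`. -/
def IsSaddle {n : ℕ} (ρ : Eu n → ℝ) (x : Eu n) (c : ℝ) : Prop :=
  (∃ v w : Eu n, ‖v‖ = 1 ∧ ‖w‖ = 1 ∧ ⟪v, w⟫ = 0 ∧ ⟪normal ρ x, v⟫ = 0 ∧ ⟪normal ρ x, w⟫ = 0 ∧
    ∀ a b : ℝ, secondForm ρ x (a • v + b • w) ≤ c * (a ^ 2 + b ^ 2)) ∧
  ∃ z : Eu n, ‖z‖ = 1 ∧ ⟪normal ρ x, z⟫ = 0 ∧ c ≤ secondForm ρ x z

/-- No outward normal segment `x + d • ν(x) = p`, `d > 0`, starts at a point `x` of the hypersurface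
with `κ₂ ≤ -1/d ≤ κₙ`. -/
def GoodOutward {n : ℕ} (ρ : Eu n → ℝ) (p : Eu n) : Prop :=
  ∀ x, ρ x = 0 → ∀ d : ℝ, 0 < d → x + d • normal ρ x = p → ¬IsSaddle ρ x (-(1 / d))

/-- No inward normal segment `x - d • ν(x) = p`, `d > 0`, starts at a point `x` of the hypersurface
with `κ₂ ≤ 1/d ≤ κₙ`. -/
def GoodInward {n : ℕ} (ρ : Eu n → ℝ) (p : Eu n) : Prop :=
  ∀ x, ρ x = 0 → ∀ d : ℝ, 0 < d → x - d • normal ρ x = p → ¬IsSaddle ρ x (1 / d)

theorem result (n : ℕ) (hn : 3 ≤ n) (X : Type) [TopologicalSpace X] [ChartedSpace (Eu n) X]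
    [IsManifold (𝓡 n) ∞ X] [SimplyConnectedSpace X] (j : X → Eu (n + 1))
    (hj : IsSmoothEmbedding (𝓡 n) (𝓡 (n + 1)) ∞ j) (ρ : Eu (n + 1) → ℝ)
    (hρ : SmoothDomain (n + 1) ρ) (hX : range j = {x | ρ x = 0}) (p : Eu (n + 1))
    (h : GoodOutward ρ p ∨ (0 < ρ p ∧ GoodInward ρ p)) :
    Nonempty (X ≃ₘ⟮𝓡 n, 𝓡 n⟯ sphere (0 : Eu (n + 1)) 1) := by
  by_contra hno
  -- the second fundamental form compared with the sphere
  have horth : ∀ x, ∀ s : ℝ, s ≠ 0 → ∀ y, s * ⟪∇ ρ x, y⟫ = 0 → ⟪normal ρ x, y⟫ = 0 := by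
    intro x s hs y hy
    unfold normal
    rw [inner_smul_left, (mul_eq_zero.1 hy).resolve_left hs]
    simp
  have key : ∀ x, ρ x = 0 → ∀ (s c : ℝ), 0 < s → ∀ v w z : Eu (n + 1), ‖v‖ = 1 → ‖w‖ = 1 →
      ‖z‖ = 1 → ⟪v, w⟫ = 0 → s * ⟪∇ ρ x, v⟫ = 0 → s * ⟪∇ ρ x, w⟫ = 0 → s * ⟪∇ ρ x, z⟫ = 0 →
      (∀ a b : ℝ, s * ⟪fderiv ℝ (∇ ρ) x (a • v + b • w), a • v + b • w⟫ ≤
        c * (a ^ 2 + b ^ 2)) →
      c ≤ s * ⟪fderiv ℝ (∇ ρ) x z, z⟫ → IsSaddle ρ x (c / (s * ‖∇ ρ x‖)) := by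
    intro x hx s c hs v w z hv hw hz hvw h1 h2 h3 h4 h5
    have hg0 : 0 < ‖∇ ρ x‖ := norm_pos_iff.2 (hρ.regular x hx)
    have h6 : ∀ y, secondForm ρ x y = ⟪fderiv ℝ (∇ ρ) x y, y⟫ / ‖∇ ρ x‖ := fun y => rfl
    refine ⟨⟨v, w, hv, hw, hvw, horth x s hs.ne' v h1, horth x s hs.ne' w h2, fun a b => ?_⟩, z,
      hz, horth x s hs.ne' z h3, ?_⟩
    · rw [h6, div_le_iff₀ hg0]
      have h7 : c / (s * ‖∇ ρ x‖) * (a ^ 2 + b ^ 2) * ‖∇ ρ x‖ = c * (a ^ 2 + b ^ 2) / s := by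
        field_simp
      rw [h7, le_div_iff₀ hs]
      have := h4 a b
      linarith
    · rw [h6, div_le_div_iff₀ (by positivity) hg0]
      have := mul_le_mul_of_nonneg_right h5 hg0.le
      linarith
  have hsn : ∀ x, ρ x = 0 → ∀ s : ℝ, (s * ‖∇ ρ x‖) • normal ρ x = s • ∇ ρ x := by
    intro x hx s
    unfold normal
    rw [smul_smul, mul_assoc, mul_inv_cancel₀ (norm_pos_iff.2 (hρ.regular x hx)).ne', mul_one]
  have hsq : ∀ (v w : Eu (n + 1)), ‖v‖ = 1 → ‖w‖ = 1 → ⟪v, w⟫ = 0 → ∀ a b : ℝ,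
      ⟪a • v + b • w, a • v + b • w⟫ = a ^ 2 + b ^ 2 := by
    intro v w hv hw hvw a b
    have hwv : ⟪w, v⟫ = 0 := by rw [real_inner_comm]; exact hvw
    rw [inner_add_left, inner_add_right, inner_add_right, real_inner_smul_left,
      real_inner_smul_left, real_inner_smul_left, real_inner_smul_left, real_inner_smul_right,
      real_inner_smul_right, real_inner_smul_right, real_inner_smul_right,
      real_inner_self_eq_norm_sq, real_inner_self_eq_norm_sq, hv, hw, hvw, hwv]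
    ring
  rcases h with h | ⟨hp, h⟩
  · -- the outward normals
    have hφ : ContDiff ℝ ∞ fun y : Eu (n + 1) => -(-(‖y - p‖ ^ 2 / 2)) :=
      (Q196.XG.negsq_smooth p).neg
    have hgr : ∀ x, ∇ (fun y : Eu (n + 1) => -(-(‖y - p‖ ^ 2 / 2))) x = x - p := by
      intro x
      have h1 : fderiv ℝ (fun y : Eu (n + 1) => -(-(‖y - p‖ ^ 2 / 2))) x =
          -fderiv ℝ (fun y : Eu (n + 1) => -(‖y - p‖ ^ 2 / 2)) x := fderiv_fun_neg
      have h2 := Q196.XG.negsq_grad p x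
      unfold gradient at h2 ⊢
      rw [h1, map_neg, h2, neg_neg]
    have hH : ∀ x y, fderiv ℝ (∇ fun y : Eu (n + 1) => -(-(‖y - p‖ ^ 2 / 2))) x y = y := by
      intro x y
      have h1 : HasFDerivAt (fun y : Eu (n + 1) => y - p) (ContinuousLinearMap.id ℝ _) x :=
        (hasFDerivAt_id x).sub_const p
      rw [show (∇ fun y : Eu (n + 1) => -(-(‖y - p‖ ^ 2 / 2))) = fun y => y - p from funext hgr,
        h1.fderiv]
      rfl
    obtain ⟨v0, hv0⟩ : ∃ v : Eu (n + 1), ‖v‖ = 1 := exists_norm_eq _ zero_le_one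
    obtain ⟨x, -, s, hs, hsρ, hg, v, w, z, hv, hw, hz, hvw, h1, h2, h3, h4, h5⟩ :=
      Q196.XG.hyp_crit3 hn hj hρ.smooth hρ.regular hρ.compact hρ.connected hX hno hφ (by
        intro x _ _
        exact ⟨v0, by rw [hH, real_inner_self_eq_norm_sq, hv0]; norm_num⟩)
    rw [hgr] at hg
    simp only [hH] at h4 h5
    have hs0 : s ≠ 0 := by
      rintro rfl
      have := h4 1 0
      rw [hsq v w hv hw hvw] at this
      norm_num at this
    have hsp : 0 < s := lt_of_le_of_ne hs (Ne.symm hs0)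
    have hx : ρ x = 0 := (mul_eq_zero.1 hsρ).resolve_left hs0
    have hg0 : 0 < ‖∇ ρ x‖ := norm_pos_iff.2 (hρ.regular x hx)
    refine h x hx (s * ‖∇ ρ x‖) (by positivity) ?_ ?_
    · rw [hsn x hx]
      rw [eq_comm, ← sub_eq_zero, ← neg_eq_zero, neg_sub, add_sub_right_comm]
      exact hg
    · rw [← neg_div]
      refine key x hx s (-1) hsp v w z hv hw hz hvw h1 h2 h3 (fun a b => ?_) ?_
      · have := h4 a b
        rw [hsq v w hv hw hvw] at this
        linarith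
      · rw [real_inner_self_eq_norm_sq, hz] at h5
        linarith
  · -- the inward normals
    have hφ := Q196.XG.negsq_smooth p
    have hgr : ∀ x, ∇ (fun y : Eu (n + 1) => -(‖y - p‖ ^ 2 / 2)) x = -(x - p) :=
      Q196.XG.negsq_grad p
    have hH : ∀ x y, fderiv ℝ (∇ fun y : Eu (n + 1) => -(‖y - p‖ ^ 2 / 2)) x y = -y := by
      intro x y
      have h1 : HasFDerivAt (fun y : Eu (n + 1) => -(y - p)) (-(ContinuousLinearMap.id ℝ _)) x :=
        ((hasFDerivAt_id x).sub_const p).neg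
      rw [show (∇ fun y : Eu (n + 1) => -(‖y - p‖ ^ 2 / 2)) = fun y => -(y - p) from funext hgr,
        h1.fderiv]
      rfl
    obtain ⟨x, hx0, s, hs, hsρ, hg, v, w, z, hv, hw, hz, hvw, h1, h2, h3, h4, h5⟩ :=
      Q196.XG.hyp_crit3 hn hj hρ.smooth hρ.regular hρ.compact hρ.connected hX hno hφ (by
        intro x hx h0
        rw [hgr, neg_eq_zero, sub_eq_zero] at h0
        rw [h0] at hx
        exact absurd hx (not_le.2 hp))
    rw [hgr] at hg
    simp only [hH] at h4 h5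
    have hs0 : s ≠ 0 := by
      rintro rfl
      rw [zero_smul, add_zero, neg_eq_zero, sub_eq_zero] at hg
      rw [hg] at hx0
      exact absurd hx0 (not_le.2 hp)
    have hsp : 0 < s := lt_of_le_of_ne hs (Ne.symm hs0)
    have hx : ρ x = 0 := (mul_eq_zero.1 hsρ).resolve_left hs0
    have hg0 : 0 < ‖∇ ρ x‖ := norm_pos_iff.2 (hρ.regular x hx)
    refine h x hx (s * ‖∇ ρ x‖) (by positivity) ?_ ?_
    · rw [hsn x hx, sub_eq_iff_eq_add, ← sub_eq_iff_eq_add']
      exact (neg_add_eq_zero.1 hg)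
    · refine key x hx s 1 hsp v w z hv hw hz hvw h1 h2 h3 (fun a b => ?_) ?_
      · have := h4 a b
        rw [inner_neg_left, hsq v w hv hw hvw] at this
        linarith
      · rw [inner_neg_left, real_inner_self_eq_norm_sq, hz] at h5
        linarith

end Pool.Agent.Results.MP_cb9bff_gt.SaddleRays
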